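import Pool.Agent.Helper7.KS3.Goals

/-!
# Packet KS3-REC (helper39 for helper7): the recursion with loss of memory
-/

set_option autoImplicit false
open Classical

namespace Pool.Agent.Helper39.KS3

/-- The first `a` elements of a set. -/
theorem exists_fst {K : ℕ} (S : Finset (Fin K)) (a : ℕ) :
    ∃ T : Finset (Fin K), T ⊆ S ∧ T.card = min a S.card ∧ ∀ i ∈ S \ T, ∀ j ∈ T, j < i := by
  induction a with
  | zero => exact ⟨∅, by simp, by simp, by simp⟩
  | succ a ih =>
    obtain ⟨T, hTS, hTc, hT⟩ := ih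
    rcases (S \ T).eq_empty_or_nonempty with h0 | hne
    · have hST : S ⊆ T := Finset.sdiff_eq_empty_iff_subset.mp h0
      have hEq : T = S := Finset.Subset.antisymm hTS hST
      refine ⟨T, hTS, ?_, hT⟩
      rw [hEq] at hTc ⊢
      omega
    · have hmem := (S \ T).min'_mem hne
      have hm := Finset.mem_sdiff.mp hmem
      have hlt : T.card < S.card := by
        apply Finset.card_lt_card
        refine ⟨hTS, fun hh => ?_⟩
        exact hm.2 (hh hm.1)
      refine ⟨insert ((S \ T).min' hne) T, ?_, ?_, ?_⟩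
      · intro x hx
        rcases Finset.mem_insert.mp hx with h1 | h1
        · rw [h1]; exact hm.1
        · exact hTS h1
      · rw [Finset.card_insert_of_notMem hm.2]
        omega
      · intro i hi j hj
        rw [Finset.mem_sdiff, Finset.mem_insert, not_or] at hi
        have hi2 : i ∈ S \ T := Finset.mem_sdiff.mpr ⟨hi.1, hi.2.2⟩
        rcases Finset.mem_insert.mp hj with h1 | h1
        · rw [h1]
          exact lt_of_le_of_ne ((S \ T).min'_le i hi2) (Ne.symm hi.2.1)
        · exact hT i hi2 j h1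

noncomputable def fst {K : ℕ} (a : ℕ) (S : Finset (Fin K)) : Finset (Fin K) :=
  Classical.choose (exists_fst S a)

theorem fst_sub {K : ℕ} (a : ℕ) (S : Finset (Fin K)) : fst a S ⊆ S :=
  (Classical.choose_spec (exists_fst S a)).1

theorem fst_card {K : ℕ} (a : ℕ) (S : Finset (Fin K)) : (fst a S).card = min a S.card :=
  (Classical.choose_spec (exists_fst S a)).2.1

/-- At most `a` elements of `S` are not after an element of `fst a S`. -/
theorem fst_before {K : ℕ} (a : ℕ) (S : Finset (Fin K)) (j : Fin K) (hj : j ∈ fst a S) :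
    (S.filter (fun i => ¬ j < i)).card ≤ a := by
  have h1 : S.filter (fun i => ¬ j < i) ⊆ fst a S := by
    intro i hi
    rw [Finset.mem_filter] at hi
    by_contra hc
    exact hi.2 ((Classical.choose_spec (exists_fst S a)).2.2 i (Finset.mem_sdiff.mpr ⟨hi.1, hc⟩) j hj)
  have h2 := Finset.card_le_card h1
  rw [fst_card] at h2
  omega

/-- Counting the positions between `j` and `K - c`. -/
theorem position {K : ℕ} (X : Finset (Fin K)) (j : Fin K) (t c : ℕ) (ht : 1 ≤ t) (hX : t ≤ X.card)
    (h : ∀ i ∈ X, j < i ∧ i.val + c < K) : j.val + (t + c) < K := by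
  have h1 : X.image (fun i => i.val) ⊆ Finset.Ioo j.val (K - c) := by
    intro x hx
    obtain ⟨i, hi, rfl⟩ := Finset.mem_image.mp hx
    have h2 := h i hi
    rw [Finset.mem_Ioo]
    have h3 : j.val < i.val := h2.1
    omega
  have h2 := Finset.card_le_card h1
  rw [Finset.card_image_of_injective _ Fin.val_injective, Nat.card_Ioo] at h2
  omega

/-- Recursion along the rank function. -/
theorem exists_fix {V β : Type} [Inhabited β] (PD : V → Finset V) (rk : V → ℕ)
    (hrk : ∀ v, ∀ u ∈ PD v, rk u < rk v) (rule : (V → β) → V → β)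
    (hloc : ∀ f g v, (∀ u ∈ PD v, f u = g u) → rule f v = rule g v) :
    ∃ F : V → β, ∀ v, F v = rule F v := by
  let F : V → β := (measure rk).wf.fix
    (fun v IH => rule (fun u => if hu : rk u < rk v then IH u hu else default) v)
  refine ⟨F, fun v => ?_⟩
  have h1 : F v = rule (fun u => if hu : rk u < rk v then F u else default) v :=
    (measure rk).wf.fix_eq _ v
  rw [h1]
  apply hloc
  intro u hu
  simp [hrk v u hu]

section Rule

variable {V : Type} {K : ℕ} (q a m Λ : ℕ) (PD : V → Finset V) (h : V → ℕ)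

/-- `a` times the full load. -/
noncomputable def FL (κ : V → Fin K) (A : V → Finset (Fin K)) (v : V) (j : Fin K) : ℕ :=
  a * ((PD v).filter (fun u => h u / Λ + 2 ≤ h v / Λ ∧ κ u = j)).card +
    ((PD v).filter (fun u => h v / Λ < h u / Λ + 2 ∧ j ∈ A u)).card

/-- `a` times the clean load. -/
noncomputable def CL (κ : V → Fin K) (A : V → Finset (Fin K)) (cl : V → Prop) (v : V) (j : Fin K) : ℕ :=
  a * ((PD v).filter (fun u => h u / Λ + 2 ≤ h v / Λ ∧ κ u = j)).card +
    ((PD v).filter (fun u => h v / Λ < h u / Λ + 2 ∧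
      (h u / Λ < h v / Λ ∨ (h u / Λ = h v / Λ ∧ cl u)) ∧ j ∈ A u)).card

noncomputable def TT (κ : V → Fin K) (A : V → Finset (Fin K)) (v : V) : Finset (Fin K) :=
  Finset.univ.filter (fun j => q * K * FL a Λ PD h κ A v j ≤ (q + 1) * m * a)

noncomputable def RR (κ : V → Fin K) (A : V → Finset (Fin K)) (cl : V → Prop) (v : V) : Finset (Fin K) :=
  Finset.univ.filter (fun j => ¬ (j.val + ((Λ - h v % Λ) - 1) * a < K) ∧
    q * K * CL a Λ PD h κ A cl v j ≤ (q + 1) * m * a)

/-- Local dependence of the loads. -/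
theorem FL_congr (κ : V → Fin K) (A A' : V → Finset (Fin K)) (v : V) (j : Fin K)
    (hA : ∀ u ∈ PD v, A u = A' u) : FL a Λ PD h κ A v j = FL a Λ PD h κ A' v j := by
  unfold FL
  congr 2
  apply Finset.filter_congr
  intro u hu
  rw [hA u hu]

theorem CL_congr (κ : V → Fin K) (A A' : V → Finset (Fin K)) (cl cl' : V → Prop) (v : V) (j : Fin K)
    (hA : ∀ u ∈ PD v, A u = A' u) (hc : ∀ u ∈ PD v, (cl u ↔ cl' u)) :
    CL a Λ PD h κ A cl v j = CL a Λ PD h κ A' cl' v j := by
  unfold CL
  congr 2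
  apply Finset.filter_congr
  intro u hu
  rw [hA u hu, hc u hu]

/-- The solution of the recursion for fixed `κ`. -/
theorem exists_sol (rk : V → ℕ) (hrk : ∀ v, ∀ u ∈ PD v, rk u < rk v) (κ : V → Fin K) :
    ∃ (A : V → Finset (Fin K)) (cl : V → Prop), ∀ v,
      (cl v ↔ a ≤ (RR q a m Λ PD h κ A cl v).card) ∧
      (cl v → A v = fst a (RR q a m Λ PD h κ A cl v)) ∧
      (¬ cl v → A v = fst a (TT q a m Λ PD h κ A v)) := by
  obtain ⟨F, hF⟩ := exists_fix (β := Finset (Fin K) × Prop) PD rk hrk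
    (fun f v => (if a ≤ (RR q a m Λ PD h κ (fun u => (f u).1) (fun u => (f u).2) v).card
      then fst a (RR q a m Λ PD h κ (fun u => (f u).1) (fun u => (f u).2) v)
      else fst a (TT q a m Λ PD h κ (fun u => (f u).1) v),
      a ≤ (RR q a m Λ PD h κ (fun u => (f u).1) (fun u => (f u).2) v).card)) (by
    intro f g v hfg
    have h1 : RR q a m Λ PD h κ (fun u => (f u).1) (fun u => (f u).2) v =
        RR q a m Λ PD h κ (fun u => (g u).1) (fun u => (g u).2) v := by
      unfold RR
      apply Finset.filter_congr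
      intro j _
      rw [CL_congr a Λ PD h κ (fun u => (f u).1) (fun u => (g u).1) (fun u => (f u).2)
        (fun u => (g u).2) v j (fun u hu => by simp [hfg u hu]) (fun u hu => by simp [hfg u hu])]
    have h2 : TT q a m Λ PD h κ (fun u => (f u).1) v = TT q a m Λ PD h κ (fun u => (g u).1) v := by
      unfold TT
      apply Finset.filter_congr
      intro j _
      rw [FL_congr a Λ PD h κ (fun u => (f u).1) (fun u => (g u).1) v j
        (fun u hu => by simp [hfg u hu])]
    simp only [h1, h2])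
  refine ⟨fun u => (F u).1, fun u => (F u).2, fun v => ?_⟩
  have h1 : (F v).2 = (a ≤ (RR q a m Λ PD h κ (fun u => (F u).1) (fun u => (F u).2) v).card) :=
    congrArg Prod.snd (hF v)
  have h2 : (F v).1 = (if a ≤ (RR q a m Λ PD h κ (fun u => (F u).1) (fun u => (F u).2) v).card
      then fst a (RR q a m Λ PD h κ (fun u => (F u).1) (fun u => (F u).2) v)
      else fst a (TT q a m Λ PD h κ (fun u => (F u).1) v)) :=
    congrArg Prod.fst (hF v)
  refine ⟨by rw [← h1], fun hc => ?_, fun hc => ?_⟩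
  · have h3 : a ≤ (RR q a m Λ PD h κ (fun u => (F u).1) (fun u => (F u).2) v).card := by
      rw [← h1]; exact hc
    show (F v).1 = _
    rw [h2, if_pos h3]
  · have h3 : ¬ a ≤ (RR q a m Λ PD h κ (fun u => (F u).1) (fun u => (F u).2) v).card := by
      rw [← h1]; exact hc
    show (F v).1 = _
    rw [h2, if_neg h3]

/-- (0) part one: the sum of the loads. -/
theorem sum_FL (κ : V → Fin K) (A : V → Finset (Fin K)) (hA : ∀ u, (A u).card ≤ a) (v : V) :
    ∑ j : Fin K, FL a Λ PD h κ A v j ≤ a * (PD v).card := by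
  have h1 : ∀ j : Fin K, FL a Λ PD h κ A v j = ∑ u ∈ PD v,
      ((if h u / Λ + 2 ≤ h v / Λ ∧ κ u = j then a else 0) +
        (if h v / Λ < h u / Λ + 2 ∧ j ∈ A u then 1 else 0)) := by
    intro j
    unfold FL
    rw [Finset.sum_add_distrib, Finset.card_filter, Finset.card_filter, Finset.mul_sum]
    congr 1
    apply Finset.sum_congr rfl
    intro u _
    split_ifs <;> simp
  simp only [h1]
  rw [Finset.sum_comm]
  have h2 : ∀ u ∈ PD v, ∑ j : Fin K, ((if h u / Λ + 2 ≤ h v / Λ ∧ κ u = j then a else 0) +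
        (if h v / Λ < h u / Λ + 2 ∧ j ∈ A u then 1 else 0)) ≤ a := by
    intro u _
    rw [Finset.sum_add_distrib]
    by_cases hs : h u / Λ + 2 ≤ h v / Λ
    · have hs2 : ¬ h v / Λ < h u / Λ + 2 := by omega
      simp [hs, hs2]
    · have hs2 : h v / Λ < h u / Λ + 2 := by omega
      simp only [hs, hs2, false_and, true_and, if_false, Finset.sum_const_zero, zero_add]
      rw [← Finset.card_filter]
      simpa using hA u
  calc _ ≤ ∑ u ∈ PD v, a := Finset.sum_le_sum h2
    _ = a * (PD v).card := by rw [Finset.sum_const, smul_eq_mul, mul_comm]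

/-- (0): `|T v| ≥ 3 a`. -/
theorem TT_card (κ : V → Fin K) (A : V → Finset (Fin K)) (hA : ∀ u, (A u).card ≤ a) (v : V)
    (hK : K = 3 * (q + 1) * a) (hm : (PD v).card ≤ m) :
    3 * a ≤ (TT q a m Λ PD h κ A v).card := by
  by_contra hlt
  push Not at hlt
  have h1 := sum_FL a Λ PD h κ A hA v
  have h2 : ∀ j ∈ (TT q a m Λ PD h κ A v)ᶜ, (q + 1) * m * a + 1 ≤ q * K * FL a Λ PD h κ A v j := by
    intro j hj
    rw [Finset.mem_compl, TT, Finset.mem_filter] at hj
    simp only [Finset.mem_univ, true_and, not_le] at hj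
    omega
  have h3 := Finset.sum_le_sum h2
  rw [Finset.sum_const, smul_eq_mul, Finset.card_compl, Fintype.card_fin] at h3
  have h4 : ∑ j ∈ (TT q a m Λ PD h κ A v)ᶜ, q * K * FL a Λ PD h κ A v j ≤
      q * K * ∑ j : Fin K, FL a Λ PD h κ A v j := by
    rw [Finset.mul_sum]
    exact Finset.sum_le_sum_of_subset (Finset.subset_univ _)
  have h5 : 3 * q * a + 1 ≤ K - (TT q a m Λ PD h κ A v).card := by
    have : K = 3 * q * a + 3 * a := by rw [hK]; ring
    omega
  have h6 : (3 * q * a + 1) * ((q + 1) * m * a + 1) ≤ q * K * (a * m) := by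
    calc (3 * q * a + 1) * ((q + 1) * m * a + 1)
        ≤ (K - (TT q a m Λ PD h κ A v).card) * ((q + 1) * m * a + 1) := Nat.mul_le_mul_right _ h5
      _ ≤ q * K * ∑ j : Fin K, FL a Λ PD h κ A v j := le_trans h3 h4
      _ ≤ q * K * (a * m) := by
        apply Nat.mul_le_mul_left
        exact le_trans h1 (Nat.mul_le_mul_left _ hm)
  rw [hK] at h6
  nlinarith [h6]

end Rule

section Main

variable {V : Type} {K : ℕ} (q a m Λ : ℕ) (PD : V → Finset V) (rk : V → ℕ) (h : V → ℕ)

/-- A solution of the recursion. -/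
structure Sol (κ : V → Fin K) (A : V → Finset (Fin K)) (cl : V → Prop) : Prop where
  hc : ∀ v, cl v ↔ a ≤ (RR q a m Λ PD h κ A cl v).card
  hac : ∀ v, cl v → A v = fst a (RR q a m Λ PD h κ A cl v)
  hat : ∀ v, ¬ cl v → A v = fst a (TT q a m Λ PD h κ A v)

/-- The hypotheses. -/
structure Hyp (K : ℕ) : Prop where
  hq : 1 ≤ q
  ha : 1 ≤ a
  hK : K = 3 * (q + 1) * a
  hΛ : Λ = 3 * (q + 1)
  hrk : ∀ v, ∀ u ∈ PD v, rk u < rk v
  hm : ∀ v, (PD v).card ≤ m
  hh : ∀ v, ∀ u ∈ PD v, h u ≤ h v + 1

variable {q a m Λ PD rk h}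
variable {κ : V → Fin K} {A : V → Finset (Fin K)} {cl : V → Prop}

theorem Sol.le_a (S : Sol q a m Λ PD h κ A cl) (u : V) : (A u).card ≤ a := by
  by_cases hc : cl u
  · rw [S.hac u hc, fst_card]; omega
  · rw [S.hat u hc, fst_card]; omega

theorem Sol.card_eq (H : Hyp q a m Λ PD rk h K) (S : Sol q a m Λ PD h κ A cl) (v : V) :
    (A v).card = a := by
  by_cases hc : cl v
  · have h1 := (S.hc v).mp hc
    rw [S.hac v hc, fst_card]; omega
  · have h1 := TT_card q a m Λ PD h κ A S.le_a v H.hK (H.hm v)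
    rw [S.hat v hc, fst_card]; omega

theorem Hyp.Λpos (H : Hyp q a m Λ PD rk h K) : 2 ≤ Λ := by
  have h1 := H.hΛ
  omega

/-- (1) -/
theorem Hyp.dep_parent (H : Hyp q a m Λ PD rk h K) (v u : V) (hu : u ∈ PD v)
    (hd : 2 ≤ Λ - h v % Λ) : h u / Λ ≤ h v / Λ ∧
      (h u / Λ = h v / Λ → (Λ - h v % Λ) - 1 ≤ Λ - h u % Λ) := by
  have h0 := H.hh v u hu
  have hΛ := H.Λpos
  have h1 := Nat.div_add_mod (h v) Λ
  have h2 := Nat.div_add_mod (h u) Λ
  have h3 : h v % Λ < Λ := Nat.mod_lt _ (by omega)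
  have h4 : h u % Λ < Λ := Nat.mod_lt _ (by omega)
  constructor
  · by_contra hc
    push Not at hc
    have h5 : Λ * (h v / Λ + 1) ≤ Λ * (h u / Λ) := Nat.mul_le_mul_left _ hc
    rw [Nat.mul_add, Nat.mul_one] at h5
    omega
  · intro he
    rw [he] at h2
    omega

/-- (2), second claim. -/
theorem Sol.FL_eq_CL (H : Hyp q a m Λ PD rk h K) (v : V)
    (IH : ∀ u ∈ PD v, ¬ cl u → ∀ j ∈ A u, j.val + (Λ - h u % Λ) * a < K)
    (j : Fin K) (hj : ¬ (j.val + ((Λ - h v % Λ) - 1) * a < K)) :
    FL a Λ PD h κ A v j = CL a Λ PD h κ A cl v j := by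
  have hd : 2 ≤ Λ - h v % Λ := by
    by_contra hc
    have h1 : (Λ - h v % Λ) - 1 = 0 := by omega
    rw [h1, Nat.zero_mul, Nat.add_zero] at hj
    exact hj j.isLt
  unfold FL CL
  congr 2
  apply Finset.filter_congr
  intro u hu
  constructor
  · rintro ⟨h1, h2⟩
    refine ⟨h1, ?_, h2⟩
    obtain ⟨h3, h4⟩ := H.dep_parent v u hu hd
    rcases lt_or_eq_of_le h3 with h5 | h5
    · exact Or.inl h5
    · refine Or.inr ⟨h5, ?_⟩
      by_contra hc
      have h6 := IH u hu hc j h2
      have h7 := Nat.mul_le_mul_right a (h4 h5)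
      omega
  · rintro ⟨h1, _, h2⟩
    exact ⟨h1, h2⟩

/-- (2), first claim. -/
theorem Sol.tainted (H : Hyp q a m Λ PD rk h K) (S : Sol q a m Λ PD h κ A cl) :
    ∀ (n : ℕ) (v : V), rk v < n → ¬ cl v → ∀ j ∈ A v, j.val + (Λ - h v % Λ) * a < K := by
  intro n
  induction n with
  | zero => intro v hv; omega
  | succ n ih =>
    intro v hv hc j hj
    have ha := H.ha
    have hIH : ∀ u ∈ PD v, ¬ cl u → ∀ j ∈ A u, j.val + (Λ - h u % Λ) * a < K := by
      intro u hu
      have := H.hrk v u hu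
      exact ih u (by omega)
    have hT3 := TT_card q a m Λ PD h κ A S.le_a v H.hK (H.hm v)
    have hR : ¬ a ≤ (RR q a m Λ PD h κ A cl v).card := fun hh => hc ((S.hc v).mpr hh)
    have hsub : (TT q a m Λ PD h κ A v).filter
        (fun i => ¬ (i.val + ((Λ - h v % Λ) - 1) * a < K)) ⊆ RR q a m Λ PD h κ A cl v := by
      intro i hi
      rw [Finset.mem_filter, TT, Finset.mem_filter] at hi
      rw [RR, Finset.mem_filter]
      refine ⟨Finset.mem_univ _, hi.2, ?_⟩
      rw [← Sol.FL_eq_CL H v hIH i hi.2]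
      exact hi.1.2
    have h1 := Finset.card_le_card hsub
    have h2 := Finset.card_filter_add_card_filter_not (s := TT q a m Λ PD h κ A v)
      (fun i => i.val + ((Λ - h v % Λ) - 1) * a < K)
    rw [S.hat v hc] at hj
    have h3 := fst_before a (TT q a m Λ PD h κ A v) j hj
    set P := (TT q a m Λ PD h κ A v).filter
      (fun i => i.val + ((Λ - h v % Λ) - 1) * a < K) with hP
    have h4 := Finset.card_filter_add_card_filter_not (s := P) (fun i => j < i)
    have h5 : (P.filter (fun i => ¬ j < i)).card ≤ a := by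
      refine le_trans (Finset.card_le_card ?_) h3
      apply Finset.filter_subset_filter
      exact Finset.filter_subset _ _
    have h6 := position (P.filter (fun i => j < i)) j a (((Λ - h v % Λ) - 1) * a) ha (by omega) (by
      intro i hi
      rw [Finset.mem_filter, hP, Finset.mem_filter] at hi
      exact ⟨hi.2, hi.1.2⟩)
    have hΛ := H.Λpos
    have h7 : h v % Λ < Λ := Nat.mod_lt _ (by omega)
    have h8 : a + ((Λ - h v % Λ) - 1) * a = (Λ - h v % Λ) * a := by
      have : Λ - h v % Λ = (Λ - h v % Λ) - 1 + 1 := by omega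
      conv_rhs => rw [this]
      ring
    rw [h8] at h6
    exact h6

/-- (3) -/
theorem Sol.clean (H : Hyp q a m Λ PD rk h K) (S : Sol q a m Λ PD h κ A cl) (v : V)
    (hv : h v % Λ = 0) : cl v := by
  by_contra hc
  have h1 := S.card_eq H v
  have ha := H.ha
  have h2 : (A v).Nonempty := by
    rw [← Finset.card_pos]; omega
  obtain ⟨j, hj⟩ := h2
  have h3 := S.tainted H (rk v + 1) v (by omega) hc j hj
  rw [hv, Nat.sub_zero, H.hΛ, ← H.hK] at h3
  omega

/-- (4) -/
theorem Sol.good (H : Hyp q a m Λ PD rk h K) (S : Sol q a m Λ PD h κ A cl) (v : V) :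
    ∀ j ∈ A v, q * K * FL a Λ PD h κ A v j ≤ (q + 1) * m * a := by
  intro j hj
  by_cases hc : cl v
  · rw [S.hac v hc] at hj
    have h1 := fst_sub _ _ hj
    rw [RR, Finset.mem_filter] at h1
    rw [Sol.FL_eq_CL (κ := κ) (cl := cl) H v (fun u hu => S.tainted H (rk u + 1) u (by omega)) j h1.2.1]
    exact h1.2.2
  · rw [S.hat v hc] at hj
    have h1 := fst_sub _ _ hj
    rw [TT, Finset.mem_filter] at h1
    exact h1.2

/-- (5) -/
theorem causality (H : Hyp q a m Λ PD rk h K) {κ' : V → Fin K} {A' : V → Finset (Fin K)}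
    {cl' : V → Prop} (S : Sol q a m Λ PD h κ A cl) (S' : Sol q a m Λ PD h κ' A' cl') (s : ℕ)
    (hκ : ∀ u, h u / Λ + 2 ≤ s → κ u = κ' u) :
    ∀ (n : ℕ) (v : V), rk v < n → h v / Λ ≤ s →
      (cl v ↔ cl' v) ∧ (h v / Λ < s ∨ cl v → A v = A' v) := by
  intro n
  induction n with
  | zero => intro v hv; omega
  | succ n ih =>
    intro v hv hs
    have hΛ := H.Λpos
    have hext : ∀ j, (PD v).filter (fun u => h u / Λ + 2 ≤ h v / Λ ∧ κ u = j) =
        (PD v).filter (fun u => h u / Λ + 2 ≤ h v / Λ ∧ κ' u = j) := by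
      intro j
      apply Finset.filter_congr
      intro u _
      constructor
      · rintro ⟨h1, h2⟩
        exact ⟨h1, by rw [← hκ u (by omega)]; exact h2⟩
      · rintro ⟨h1, h2⟩
        exact ⟨h1, by rw [hκ u (by omega)]; exact h2⟩
    have hCL : ∀ j, CL a Λ PD h κ A cl v j = CL a Λ PD h κ' A' cl' v j := by
      intro j
      unfold CL
      rw [hext j]
      congr 2
      apply Finset.filter_congr
      intro u hu
      have hr := H.hrk v u hu
      constructor
      · rintro ⟨h1, h2 | h2, h3⟩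
        · obtain ⟨h4, h5⟩ := ih u (by omega) (by omega)
          rw [h5 (Or.inl (by omega))] at h3
          exact ⟨h1, Or.inl h2, h3⟩
        · obtain ⟨h4, h5⟩ := ih u (by omega) (by omega)
          rw [h5 (Or.inr h2.2)] at h3
          exact ⟨h1, Or.inr ⟨h2.1, h4.mp h2.2⟩, h3⟩
      · rintro ⟨h1, h2 | h2, h3⟩
        · obtain ⟨h4, h5⟩ := ih u (by omega) (by omega)
          rw [← h5 (Or.inl (by omega))] at h3
          exact ⟨h1, Or.inl h2, h3⟩
        · obtain ⟨h4, h5⟩ := ih u (by omega) (by omega)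
          rw [← h5 (Or.inr (h4.mpr h2.2))] at h3
          exact ⟨h1, Or.inr ⟨h2.1, h4.mpr h2.2⟩, h3⟩
    have hRR : RR q a m Λ PD h κ A cl v = RR q a m Λ PD h κ' A' cl' v := by
      unfold RR
      apply Finset.filter_congr
      intro j _
      rw [hCL j]
    have hcl : cl v ↔ cl' v := by rw [S.hc v, S'.hc v, hRR]
    refine ⟨hcl, fun hcase => ?_⟩
    by_cases hc : cl v
    · rw [S.hac v hc, S'.hac v (hcl.mp hc), hRR]
    · have hs2 : h v / Λ < s := by
        rcases hcase with h1 | h1
        · exact h1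
        · exact absurd h1 hc
      rw [S.hat v hc, S'.hat v (fun h1 => hc (hcl.mpr h1))]
      congr 1
      unfold TT
      apply Finset.filter_congr
      intro j _
      have hFL : FL a Λ PD h κ A v j = FL a Λ PD h κ' A' v j := by
        unfold FL
        rw [hext j]
        congr 2
        apply Finset.filter_congr
        intro u hu
        have hr := H.hrk v u hu
        have h0 := H.hh v u hu
        have h1 := Nat.div_add_mod (h v) Λ
        have h2 := Nat.div_add_mod (h u) Λ
        have h3 : h v % Λ < Λ := Nat.mod_lt _ (by omega)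
        have h4 : h u % Λ < Λ := Nat.mod_lt _ (by omega)
        have h5 : h u / Λ ≤ h v / Λ + 1 := by
          by_contra hcon
          push Not at hcon
          have h6 : Λ * (h v / Λ + 1 + 1) ≤ Λ * (h u / Λ) := Nat.mul_le_mul_left _ hcon
          rw [Nat.mul_add, Nat.mul_add, Nat.mul_one] at h6
          omega
        have hAA : A u = A' u := by
          obtain ⟨h6, h7⟩ := ih u (by omega) (by omega)
          by_cases hus : h u / Λ < s
          · exact h7 (Or.inl hus)
          · apply h7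
            right
            apply S.clean H
            have h8 : h u / Λ = h v / Λ + 1 := by omega
            rw [h8, Nat.mul_add, Nat.mul_one] at h2
            omega
        rw [hAA]
      rw [hFL]

end Main

/-- **S_REC**. -/
theorem s_rec : Pool.Agent.Helper7.KS3.S_REC := by
  intro V _ q a m K Λ PD rk h hq ha hK hΛ hrk hm hh
  have H : Hyp q a m Λ PD rk h K := ⟨hq, ha, hK, hΛ, hrk, hm, hh⟩
  have hex : ∀ κ : V → Fin K, ∃ (A : V → Finset (Fin K)) (cl : V → Prop),
      Sol q a m Λ PD h κ A cl := by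
    intro κ
    obtain ⟨A, cl, hA⟩ := exists_sol q a m Λ PD h rk hrk κ
    exact ⟨A, cl, ⟨fun v => (hA v).1, fun v => (hA v).2.1, fun v => (hA v).2.2⟩⟩
  choose A cl hS using hex
  refine ⟨A, fun κ v => (hS κ).card_eq H v, fun κ v => (hS κ).good H v, ?_⟩
  intro κ κ' v hκ
  have h1 := causality H (hS κ) (hS κ') (h v / Λ + 1) (fun u hu => hκ u (by omega)) (rk v + 1) v
    (by omega) (by omega)
  exact h1.2 (Or.inl (by omega))

end Pool.Agent.Helper39.KS3
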